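import Pool.Agent.Q49.FC.Curves

/-!
# `K_2` of curves over `ℚ` and étale coverings of Fermat curves

For a smooth projective geometrically irreducible curve `C` over a number field `k` let `reg C` be the regulator
on `K_2(C_O) ⊗ ℚ`, where `C_O` is a regular model over the ring of integers of `k`, with values in
`H^2_D(C_ℝ, ℝ(2))`. Let `X` be a curve over `ℚ`. Part (i) of question Q1 says that the image of the
regulator is a `ℚ`-structure of `H^2_D(X_ℝ, ℝ(2))` (`Structure`), and part (iii), up to torsion, that the
regulator is injective on `K_2(X_ℤ) ⊗ ℚ`.

**Theorem.** The following statements are equivalent.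

1. Parts (i) and (iii), up to torsion, of question Q1 for all curves `X` over `ℚ`.
2. For all curves `C` over all number fields the regulator induces an isomorphism
   `K_2(C_O) ⊗ ℝ → H^2_D(C_ℝ, ℝ(2))`.
3. The same for all curves `C'` over number fields `L` which are, for some `N`, finite étale Galois
   coverings of the Fermat curve `x^N + y^N = 1` over `L`, and Galois coverings of the projective line by
   `x^N`.
4. The same, for one integer `M > 0` and one number field `L₀`, only for the `N` divisible by `M` and the
   fields `L` containing `L₀`.

The known facts used (hypotheses `IsCurves`): Let `C` be a curve over `k`. By Belyi's theorem there is a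
covering `C → ℙ¹` which is ramified only over `0, 1, ∞`. Let `N` be a multiple of `M` and of the ramification
indices, and let `C'` be the Galois closure over `ℙ¹` of a component of the normalization of
`C ×_{ℙ¹} F_N`, over a large field `L`. By Abhyankar's lemma `C' → F_N` is étale. For the nonconstant morphism
`C' → C` inverse and direct image satisfy `f_* f^* = d` (`Factor`), compatibly with regulators and with
the integral parts. The Weil restriction to `ℚ` of the Jacobian of `C` is a quotient of the Jacobian of a
curve over `ℚ`, and the groups, tensored with `ℚ`, depend only on `h^1`.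
-/

set_option autoImplicit false

universe u

namespace Pool.Agent.Results.MP_743d1e_nt.FermatCovers

open Pool.Agent.Q49.FC

/-- **`K_2` of curves over `ℚ` and étale coverings of Fermat curves.** -/
theorem result {D : Curves.{u}} (h : IsCurves D) : List.TFAE [
    ∀ X : D.Curve D.Q, (D.reg X).Structure ∧ Function.Injective (D.reg X).r,
    ∀ (k : D.Fld) (C : D.Curve k), (D.reg C).Iso,
    ∀ (L : D.Fld) (N : ℕ) (C' : D.Curve L), 0 < N → D.IsFermatCover N C' → (D.reg C').Iso,
    ∃ (M : ℕ) (L₀ : D.Fld), 0 < M ∧ ∀ (L : D.Fld) (N : ℕ) (C' : D.Curve L), 0 < N →
      D.Le L₀ L → M ∣ N → D.IsFermatCover N C' → (D.reg C').Iso] := by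
  have h1 : (∀ X : D.Curve D.Q, (D.reg X).Structure ∧ Function.Injective (D.reg X).r) ↔
      ∀ X : D.Curve D.Q, (D.reg X).Iso :=
    forall_congr' fun X => and_comm.trans (iso_iff (D.reg X)).symm
  rw [h1]
  have h2 := curves_tfae h
  tfae_have 1 ↔ 2 := h2.out 1 0
  tfae_have 2 ↔ 3 := h2.out 0 2
  tfae_have 2 ↔ 4 := h2.out 0 3
  tfae_finish

end Pool.Agent.Results.MP_743d1e_nt.FermatCovers
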