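import Pool.Agent.Q68.OV.Reg

/-!
# The regulator on `K_2` of one curve over `ℚ` and finitely many cubics `T(x, y, z) = 1`

Let `S` be **one** smooth projective curve over `ℚ`. The parts (i) and (iii), up to torsion, of the
conjecture of Beilinson and Bloch for `S` say together that the regulator
`r : K_2(S_ℤ) ⊗ ℝ → H_𝒟^2(S_ℝ, ℝ(2)) = H^1(S(ℂ), ℝ(1))^+` is an isomorphism (`Iso`).

For a smooth projective scheme `Y` over `ℚ` let `M^m(Y) = H_M^{2m-2}(Y, ℚ(m))_ℤ ⊗ ℝ` (integral part,
Scholl) and `D^m(Y) = H_𝒟^{2m-2}(Y_ℝ, ℝ(m))`, with the regulator `r : M^m(Y) → D^m(Y)`. The cycles `c` of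
codimension `m - 1` on `S × Y` operate by `c_* : M^2(S) → M^m(Y)` and `c_* : D^2(S) → D^m(Y)`. Let
`A^m(Y) ⊆ D^m(Y)` be the image of `r`, and `B^m(Y) = B_1^m(Y) ⊕ B_2^m(Y)`, where `B_1^m(Y) ⊆ D^m(Y)` is the
sum of `A^m(Y)` and of the images `c_* D^2(S)`, and `B_2^m(Y) ⊆ M^m(Y)` the sum of the images `c_* N` of the
kernel `N` of the regulator for `S`, for all cycles `c` as above. They are additive functors of the Chow
motive of `Y`, and the map `A^m(Y) → B^m(Y)` (the inclusion in `B_1^m(Y)`) is bijective if and only if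
`c_* N = 0` and `c_* D^2(S) ⊆ A^m(Y)` for all `c` (`RegStable`). For a separated scheme `Z` of finite type
over `ℚ` let `W(Z)` be its weight complex (Gillet, Soulé; `W(Z) = h(Z)` for smooth projective `Z`), and put
`A^{m,i}(Z) = H^i(A^m(W(Z)))`, `B^{m,i}(Z) = H^i(B^m(W(Z)))`. `At C m Z` says that the maps
`A^{m,i}(Z) → B^{m,i}(Z)` are isomorphisms for this `m` and all `i`, `BijAll C Z` that they are
isomorphisms for all `m` and `i`.

**Theorem.** There are finite lists `L`, `L'` of trilinear forms over `ℚ` and a finite list `G` of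
tripartite hypergraphs, which depend only on `S`, with the following properties.

(1) Each form in `L` has at least three variables in each of its three blocks, and exactly **three** in one
of them (nets of matrices). The regulator for `S` is an isomorphism if and only if the maps
`A^{m,i}(Z) → B^{m,i}(Z)` are isomorphisms, for all `m` and `i`, for the finitely many smooth affine cubic
hypersurfaces `Z : T(x, y, z) = 1`, `T` in `L`. If it is, they are isomorphisms for all `T` over `ℚ`.

(2) It is an isomorphism if and only if, for the finitely many hypersurfaces `T = 1`, `T` in `L'`, and the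
**one** index `m = a + 1`, `a` the number of the variables `x_i`, the maps are isomorphisms for all `i`.

(3) It is an isomorphism if and only if the maps are isomorphisms for the finitely many hypersurfaces
`∑_{(i, j, l) ∈ H} x_i y_j z_l = 1`, `H` in `G`.

(4) The maps are isomorphisms for all forms with a block of at most two variables.

The corresponding statement for all curves over `ℚ` at once is a result of helper193 of this team
(`ThreeVariables`); here there is one curve and finitely many cubics.
-/

set_option autoImplicit false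

open CategoryTheory CategoryTheory.Limits AlgebraicGeometry Pool.Agent.Y116.UV Pool.Agent.Z125.UN
  Pool.Agent.Q193.LT Pool.Agent.Q49.WU Pool.Agent.Q68.OV

universe w u

namespace Pool.Agent.Results.MP_743d1e_nt.FinitelyManyCubics

/-- A smooth projective curve `S` over `ℚ` and the regulators: `M m Y` and `D m Y` are
`H_M^{2m-2}(Y, ℚ(m))_ℤ ⊗ ℝ` and `H_𝒟^{2m-2}(Y_ℝ, ℝ(m))`, `reg` is the regulator, `Cyc m Y` the type of the
cycles of codimension `m - 1` on `S × Y`. -/
abbrev CurveData (S : Sch ℚ) := RegData.{w, 0, u} ℚ ℝ S 2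

/-- The maps are isomorphisms for the index `m`. -/
def At (C : PairData.{w} ℚ (ℤ × ℤ) ℝ) (m : ℤ) (Z : Sch ℚ) : Prop := BijAt C Prod.fst m Z

/-- **The regulator on `K_2` of one curve over `ℚ` and finitely many cubics.** See the explanations above; `zero` is the case
of dimension zero, where all groups which occur are zero. -/
theorem result {S : Sch ℚ} (hS : SmoothProj S) (h1 : topologicalKrullDim S.left ≤ (1 : ℕ)) :
    ∃ (L L' : List (Form ℚ)) (G : List Graph), (∀ t ∈ L, t.Block 3 ∧ ¬ t.Block 2) ∧
      ∀ (D : CurveData.{w, u} S) (C : PairData.{w} ℚ (ℤ × ℤ) ℝ), IsReg D → IsWeightPair C →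
        WeightGen C → (∀ Y, SmoothProj Y → ∀ m, (At C m Y ↔ RegStable D m Y)) →
        (zero : ∀ Y : Sch ℚ, SmoothProj Y → topologicalKrullDim Y.left ≤ (0 : ℕ) → BijAll C Y) →
        (Iso D ↔ ∀ t ∈ L, BijAll C t.hyp) ∧
        (Iso D ↔ ∀ t ∈ L', At C (t.a + 1) t.hyp) ∧
        (Iso D ↔ ∀ g ∈ G, BijAll C (g.hyp ℚ)) ∧
        (Iso D → ∀ t : Form ℚ, BijAll C t.hyp) ∧
        (∀ t : Form ℚ, t.Block 2 → BijAll C t.hyp) := by
  obtain ⟨L, L', G, hL, h⟩ := reg_finite.{w, 0, u} hS h1 0 2
  refine ⟨L, L', G, hL, fun D C hD hC hg bij zero => ?_⟩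
  obtain ⟨h3, h4, h5, h6, h7⟩ := h ℝ D C hD hC hg bij zero
  refine ⟨h3, h4.trans ?_, h5 frac_rat, h6, h7⟩
  have e : ∀ t : Form ℚ, (2 : ℤ) - 1 + t.a = t.a + 1 := fun t => by ring
  constructor
  · intro h t ht
    have h1 := h t ht
    rwa [e t] at h1
  · intro h t ht
    rw [e t]
    exact h t ht

end Pool.Agent.Results.MP_743d1e_nt.FinitelyManyCubics
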