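import Pool.Agent.Q45.ML.Rat

/-!
# Beilinson-Bloch for `K_2` of curves: the coefficient `c_g` at `s = 0` from smoothed point counts

Let `X` be a smooth projective curve of genus `g` over `ℚ`, `P p ∈ ℚ[X]` the polynomial `det(1 - Frob_p X | H¹(X)^{I_p})`
with reciprocal roots `α p j`, `j < 2g` (padded by zeros), `|α p j| ≤ √p`; for a prime of good reduction
`∑_j (α p j)^k = p^k + 1 - #X(𝔽_{p^k})`. Let `L` be its `L`-function, meromorphic on the real half-line `s ≥ 0`, and for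
`γ > π/2`

`S(T) = ∑_p ∑_{k ≥ 1} (∑_j (α p j)^k / k) e^{iγ k log p/T} / Γ(1 + k log p/T)`.

The presupposition `ord_{s=0} L = g` is equivalent to `Re S(T)/log T → -g` along one sequence. If it holds, then
`c_g` is real and nonzero with the sign `(-1)^N`, `N` the number of zeros minus the number of poles on `(0, ∞)`,
`T^g e^{S(T)} e^{-gΛ} = c_g + O(1/T)`, and `R ≈_ℚ c_g` for a real number `R ≠ 0` if and only if for some `D ≥ 1` the
numbers `D T^g e^{S(T)} e^{-gΛ}/R` approach the integers along one sequence.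
-/

set_option autoImplicit false

namespace Pool.Agent.Results.MP_743d1e_nt.LeadingCoefficientAtZero

open Filter Topology Asymptotics Polynomial Pool.Agent.Q45.ML

/-- the term at `(p, k)`, `k = z.2 + 1`: `(∑_j (α p j)^k / k) e^{iγ k log p/T} / Γ(1 + k log p/T)` -/
noncomputable def term {n : ℕ} (α : Nat.Primes → Fin n → ℂ) (γ T : ℝ) (z : Nat.Primes × ℕ) : ℂ :=
  (∑ j, α z.1 j ^ (z.2 + 1)) / (z.2 + 1) *
    (Complex.exp ((γ * ((z.2 + 1) * Real.log (z.1 : ℝ) / T) : ℝ) * Complex.I) /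
      (Real.Gamma (1 + (z.2 + 1) * Real.log (z.1 : ℝ) / T) : ℂ))

/-- the smoothed sum -/
noncomputable def S {n : ℕ} (α : Nat.Primes → Fin n → ℂ) (γ T : ℝ) : ℂ := ∑' z, term α γ T z

/-- the constant `Λ(γ) = ∫_0^∞ (e^{-t} - e^{iγt}/Γ(1+t)) dt/t` -/
noncomputable def Lam (γ : ℝ) : ℂ := Pool.Agent.W187.UR.Lam γ

/-- zeros minus poles of `L` on `(0, ∞)`, with multiplicities -/
noncomputable def count (L : ℂ → ℂ) : ℤ :=
  ∑ᶠ σ ∈ Set.Ioi (0 : ℝ), (meromorphicOrderAt L (σ : ℂ)).untop₀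

/-- the distance from the integers -/
noncomputable def distInt (z : ℂ) : ℝ := Metric.infDist z (Set.range fun a : ℤ => (a : ℂ))

theorem term_eq {n : ℕ} (α : Nat.Primes → Fin n → ℂ) (γ T : ℝ) (z : Nat.Primes × ℕ) :
    term α γ T z = sterm (fun p : Nat.Primes => (p : ℝ)) α 0 γ T z := by
  unfold term sterm
  simp

theorem result (g : ℕ) (P : Nat.Primes → ℚ[X]) (α : Nat.Primes → Fin (2 * g) → ℂ)
    (hP : ∀ p, (P p).map (algebraMap ℚ ℂ) = ∏ j, (1 - C (α p j) * X))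
    (hα : ∀ p j, ‖α p j‖ ≤ (p : ℝ) ^ (1 / 2 : ℝ)) (L : ℂ → ℂ)
    (hmer : ∀ σ : ℝ, 0 ≤ σ → MeromorphicAt L (σ : ℂ))
    (hL : ∀ s : ℂ, 3 / 2 < s.re →
      HasProd (fun p : Nat.Primes => (aeval ((p : ℂ) ^ (-s)) (P p))⁻¹) (L s))
    {γ : ℝ} (hγ : Real.pi / 2 < γ) :
    (∀ T : ℝ, 0 < T → Summable fun z => ‖term α γ T z‖) ∧
    List.TFAE [meromorphicOrderAt L 0 = (g : ℤ),
      ∃ M : ℝ, ∀ᶠ T : ℝ in atTop, |(S α γ T).re + g * Real.log T| ≤ M,
      Tendsto (fun T : ℝ => (S α γ T).re / Real.log T) atTop (𝓝 (-g)),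
      ∃ t : ℕ → ℝ, Tendsto t atTop atTop ∧
        Tendsto (fun n => (S α γ (t n)).re / Real.log (t n)) atTop (𝓝 (-g))] ∧
    (meromorphicOrderAt L 0 = (g : ℤ) → ∃ c : ℝ, c ≠ 0 ∧ meromorphicTrailingCoeffAt L 0 = c ∧
      c = (-1) ^ (count L) * |c| ∧
      (fun T : ℝ => Complex.exp (S α γ T) * (T : ℂ) ^ g * Complex.exp (-(g * Lam γ)) - c) =O[atTop]
        (fun T : ℝ => 1 / T) ∧
      ∀ R : ℝ, R ≠ 0 → ((∃ x : ℚ, x ≠ 0 ∧ R = x * c) ↔
        ∃ D : ℕ, 0 < D ∧ ∃ t : ℕ → ℝ, Tendsto t atTop atTop ∧ Tendsto (fun i =>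
          distInt (D * (Complex.exp (S α γ (t i)) * (t i : ℂ) ^ g * Complex.exp (-(g * Lam γ)) / R)))
          atTop (𝓝 0))) := by
  obtain ⟨hs, m, r, g1, g2, g3, g4⟩ := q_law (w := 1) P α hP hα L 0 hmer
    (fun s hs => hL s (by norm_num at hs ⊢; linarith)) hγ
  have hS : ∀ T, smooth (fun p : Nat.Primes => (p : ℝ)) α 0 γ T = S α γ T := by
    intro T
    unfold smooth S
    simp only [term_eq]
  simp only [hS] at g4
  refine ⟨fun T hT => ?_, ?_, fun hord => ?_⟩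
  · simp only [term_eq]
    exact hs T hT
  · have h5 := order_forms g1 g4 (g : ℤ)
    unfold OrderForms at h5
    rw [Complex.ofReal_zero] at h5
    simpa using h5
  · rw [Complex.ofReal_zero] at g1 g2
    have hm : m = (g : ℤ) := by
      rw [g1] at hord
      exact WithTop.coe_inj.1 hord
    subst hm
    set c : ℝ := (-1) ^ (count L) * Real.exp r.re with hc
    have hcr : Complex.exp r = (c : ℂ) := lead_sign (N := count L) (by rw [g3]; rfl)
    have hc0 : c ≠ 0 := mul_ne_zero (zpow_ne_zero _ (by norm_num)) (Real.exp_ne_zero _)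
    have hcoef : meromorphicTrailingCoeffAt L 0 = (c : ℂ) := by rw [← g2, hcr]
    have hrate : (fun T : ℝ => Complex.exp (S α γ T) * (T : ℂ) ^ g * Complex.exp (-(g * Lam γ)) - c)
        =O[atTop] (fun T : ℝ => 1 / T) := by
      have h6 := lead_tendsto (F := L) (s₀ := 0) (by rw [Complex.ofReal_zero]; exact g2) g4
      rw [Complex.ofReal_zero, hcoef] at h6
      simp only [Int.cast_natCast, zpow_natCast] at h6
      exact h6
    refine ⟨c, hc0, hcoef, ?_, hrate, fun R hR => ?_⟩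
    · rw [hc, abs_mul, abs_zpow, abs_neg, abs_one, one_zpow, one_mul, Real.abs_exp]
    · have h7 := rat_iff' (tendsto_of_rate hrate) (by exact_mod_cast hc0)
        (ρ := (R : ℂ)) (by exact_mod_cast hR)
      rw [show (∃ x : ℚ, x ≠ 0 ∧ R = x * c) ↔ ∃ x : ℚ, x ≠ 0 ∧ (R : ℂ) = x * c from
        exists_congr fun x => and_congr_right fun _ => by
          constructor
          · intro h; rw [h]; push_cast; rfl
          · intro h; exact_mod_cast h]
      exact h7

end Pool.Agent.Results.MP_743d1e_nt.LeadingCoefficientAtZero
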