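import Pool.Agent.Q193.LT.Cyc

/-!
# The regulator on `K_2` of curves and the hypersurfaces `T(x, y, z) = 1` with three variables `z`

For a Chow motive `N` over `ℚ` let `H^k_M(N, ℚ(n))_ℤ` be the integral part of the motivic cohomology
(Scholl), and `H^k_D(N_ℝ, ℝ(n))` the real Deligne cohomology. For a separated scheme `X` of finite type
over `ℚ` let `W(X)` be its weight complex (Gillet, Soulé), a complex of Chow motives, with `W(X) = h(X)`
for smooth projective `X`, and for `n, i ∈ ℤ`

`A^{n,i}(X) = H^i(H^{2n-2}_M(W(X), ℚ(n))_ℤ ⊗ ℝ)`, `B^{n,i}(X) = H^i(H^{2n-2}_D(W(X)_ℝ, ℝ(n)))`.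

These are the groups with `2n - k = 2`, that is the groups of `K_2`; this choice is stable under Tate
twists. The regulator induces maps `A^{n,i}(X) → B^{n,i}(X)`; `BijAll C X` says that they are
isomorphisms for all `n` and `i`.

For a smooth projective curve `Y` over `ℚ` one has `A^{2,0}(Y) = K_2(Y_ℤ) ⊗ ℝ` for a regular model
`Y_ℤ`, `B^{2,0}(Y) = H^1(Y(ℂ), ℝ(1))^+`, and the map is the regulator. That it is an isomorphism is the
conjunction of part (i) of question Q1 and of part (iii) up to torsion. All other groups `A^{n,i}(Y)`,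
`B^{n,i}(Y)` are zero if `Y` is a smooth projective curve; this uses that `K_2` of the ring of integers
of a number field is finite (Garland). For `Y` of dimension zero all the groups are zero. These known
facts enter by the hypotheses `point`, `zero` and `other`.

**Theorem.** (1) The regulator `K_2(Y_ℤ) ⊗ ℝ → H^1(Y(ℂ), ℝ(1))^+` is an isomorphism for all smooth
projective curves `Y` over `ℚ` if and only if the maps `A^{n,i}(Z) → B^{n,i}(Z)` are isomorphisms, for
all `n` and `i`, for the smooth affine cubic hypersurfaces `Z : T(x, y, z) = 1` of all trilinear forms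
`T` over `ℚ` such that one of the three blocks of variables has at most three variables (the other two
blocks are arbitrary); so `T` is a net `z_1 B_1 + z_2 B_2 + z_3 B_3` of matrices.

(2) The maps are isomorphisms if one of the three blocks has at most two variables.
-/

set_option autoImplicit false

open CategoryTheory CategoryTheory.Limits AlgebraicGeometry Pool.Agent.Y116.UV Pool.Agent.Z125.UN
  Pool.Agent.Q193.LT

universe w

namespace Pool.Agent.Results.MP_743d1e_nt.ThreeVariables

/-- The maps are isomorphisms for all hypersurfaces `T = 1` with a block of at most `m` variables. -/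
def Forms (C : PairData.{w} ℚ (ℤ × ℤ) ℝ) (m : ℕ) : Prop :=
  ∀ (a b c : ℕ) (T : Fin a → Fin b → Fin c → ℚ), (a ≤ m ∨ b ≤ m ∨ c ≤ m) → BijAll C (hypS T)

/-- The regulator `A^{2,0}(Y) → B^{2,0}(Y)` is an isomorphism. -/
def Regulator (C : PairData.{w} ℚ (ℤ × ℤ) ℝ) (Y : Sch ℚ) : Prop :=
  Function.Bijective (C.ρ (2, 0) Y).hom

lemma one_le_of_not_le_zero {x : WithBot ℕ∞} (h : ¬ x ≤ (0 : ℕ)) : ((1 : ℕ) : WithBot ℕ∞) ≤ x := by
  induction x with
  | bot => exact absurd bot_le h
  | coe n =>
    have h1 : ¬ n ≤ 0 := fun h2 => h (by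
      have h3 : ((n : ℕ∞) : WithBot ℕ∞) ≤ ((0 : ℕ∞) : WithBot ℕ∞) := WithBot.coe_le_coe.mpr h2
      exact_mod_cast h3)
    have h2 : (1 : ℕ∞) ≤ n := Order.one_le_iff_ne_zero.mpr fun h3 => h1 h3.le
    have h3 : ((1 : ℕ∞) : WithBot ℕ∞) ≤ ((n : ℕ∞) : WithBot ℕ∞) := WithBot.coe_le_coe.mpr h2
    exact_mod_cast h3

/-- **Regulators of curves and nets of matrices.** See the explanations above. -/
theorem result {C : PairData.{w} ℚ (ℤ × ℤ) ℝ} (hC : IsWeightPair C) (hg : WeightGen C)
    (point : BijAll C (aff ℚ ℚ))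
    (zero : ∀ Y : Sch ℚ, SmoothProj Y → topologicalKrullDim Y.left ≤ (0 : ℕ) → BijAll C Y)
    (other : ∀ Y : Sch ℚ, SmoothProj Y → topologicalKrullDim Y.left ≤ (1 : ℕ) →
      ∀ j : ℤ × ℤ, j ≠ (2, 0) → Function.Bijective (C.ρ j Y).hom) :
    ((∀ Y : Sch ℚ, SmoothProj Y → topologicalKrullDim Y.left = (1 : ℕ) → Regulator C Y) ↔
      Forms C 3) ∧ Forms C 2 := by
  refine ⟨Iff.trans ⟨fun h Y hY hn j => ?_, fun h Y hY hn => ?_⟩ (wg_dim hg hC point 1),
    (wg_dim hg hC point 0).mp zero⟩
  · by_cases hj : j = (2, 0)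
    · subst hj
      by_cases h0 : topologicalKrullDim Y.left ≤ (0 : ℕ)
      · exact zero Y hY h0 _
      · exact h Y hY (le_antisymm hn (one_le_of_not_le_zero h0))
    · exact other Y hY hn j hj
  · exact h Y hY hn.le (2, 0)

end Pool.Agent.Results.MP_743d1e_nt.ThreeVariables
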